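import Pool.Agent.N46.UN.Core

/-! `C([0,1]^n) * (ℂ ⊕ ℂ)^{*∞} ≅ (ℂ ⊕ ℂ)^{*∞}` -/

set_option autoImplicit false

open scoped ComplexConjugate

noncomputable section

namespace Pool.Agent.N46.UN

open Pool.Agent.H923R2.FP Pool.Agent.H923R2.FZ Pool.Agent.N300.UN TopologicalSpace

theorem sep_closure {A : Type} [NormedRing A] {T : Set A} (hT : IsSeparable T) :
    IsSeparable (Submonoid.closure T : Set A) := by
  have h1 : (Submonoid.closure T : Set A) ⊆ ⋃ n : ℕ,
      (fun v : Fin n → A => (List.ofFn v).prod) '' (Set.univ.pi fun _ => T) := by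
    intro x hx
    obtain ⟨l, hl, rfl⟩ := Submonoid.exists_list_of_mem_closure hx
    refine Set.mem_iUnion.2 ⟨l.length, l.get, ?_, ?_⟩
    · intro i _
      exact hl _ (List.get_mem l i)
    · simp
  refine IsSeparable.mono (IsSeparable.iUnion fun n => ?_) h1
  refine IsSeparable.image (IsSeparable.univ_pi fun _ => hT) ?_
  have h2 : (fun v : Fin n → A => (List.ofFn v).prod) =
      fun v => ((List.finRange n).map v).prod := by
    funext v
    rw [List.ofFn_eq_map]
  rw [h2]
  exact continuous_list_prod _ fun i _ => continuous_apply i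

theorem sep_adjoin {A : Type} [CStarAlgebra A] {S : Set A} (hSsep : IsSeparable S) :
    IsSeparable (StarAlgebra.adjoin ℂ S : Set A) := by
  have hT : IsSeparable (S ∪ star S) := by
    refine hSsep.union ?_
    have : star S = star '' S := by
      ext x
      simp
    rw [this]
    exact hSsep.image continuous_star
  have h2 : (StarAlgebra.adjoin ℂ S : Set A) =
      (Submodule.span ℂ (Submonoid.closure (S ∪ star S) : Set A) : Set A) := by
    rw [← Algebra.adjoin_eq_span, ← StarAlgebra.adjoin_toSubalgebra]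
    rfl
  rw [h2]
  exact (sep_closure hT).span

section

variable {P : Type} [CStarAlgebra P]

/-- the algebra generated by two factors -/
def TT (g : ℕ → (ℂ × ℂ →⋆ₐ[ℂ] P)) (m : ℕ) : StarSubalgebra ℂ P :=
  ((g (2 * m)).range ⊔ (g (2 * m + 1)).range).topologicalClosure

instance (g : ℕ → (ℂ × ℂ →⋆ₐ[ℂ] P)) (m : ℕ) : IsClosed (TT g m : Set P) :=
  StarSubalgebra.isClosed_topologicalClosure _

theorem mem0 (g : ℕ → (ℂ × ℂ →⋆ₐ[ℂ] P)) (m : ℕ) (x : ℂ × ℂ) : g (2 * m) x ∈ TT g m :=
  StarSubalgebra.le_topologicalClosure _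
    ((le_sup_left : (g (2 * m)).range ≤ (g (2 * m)).range ⊔ (g (2 * m + 1)).range) ⟨x, rfl⟩)

theorem mem1 (g : ℕ → (ℂ × ℂ →⋆ₐ[ℂ] P)) (m : ℕ) (x : ℂ × ℂ) : g (2 * m + 1) x ∈ TT g m :=
  StarSubalgebra.le_topologicalClosure _
    ((le_sup_right : (g (2 * m + 1)).range ≤ (g (2 * m)).range ⊔ (g (2 * m + 1)).range) ⟨x, rfl⟩)

theorem mem (g : ℕ → (ℂ × ℂ →⋆ₐ[ℂ] P)) (k : ℕ) (x : ℂ × ℂ) : g k x ∈ TT g (k / 2) := by
  rcases Nat.even_or_odd' k with ⟨m, rfl | rfl⟩
  · have : 2 * m / 2 = m := by omega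
    rw [this]
    exact mem0 g m x
  · have : (2 * m + 1) / 2 = m := by omega
    rw [this]
    exact mem1 g m x

theorem sepTT (g : ℕ → (ℂ × ℂ →⋆ₐ[ℂ] P)) (m : ℕ) : SeparableSpace (TT g m) := by
  have h1 : IsSeparable (StarAlgebra.adjoin ℂ (Set.range (g (2 * m)) ∪
      Set.range (g (2 * m + 1))) : Set P) := sep_adjoin
    ((isSeparable_range (cont_hom _)).union (isSeparable_range (cont_hom _)))
  have h2 : (TT g m : Set P) ⊆ closure (StarAlgebra.adjoin ℂ (Set.range (g (2 * m)) ∪
      Set.range (g (2 * m + 1))) : Set P) := by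
    refine closure_mono ?_
    change ((g (2 * m)).range ⊔ (g (2 * m + 1)).range) ≤ StarAlgebra.adjoin ℂ _
    refine sup_le ?_ ?_
    · rintro _ ⟨x, rfl⟩
      exact StarAlgebra.subset_adjoin ℂ _ (Or.inl ⟨x, rfl⟩)
    · rintro _ ⟨x, rfl⟩
      exact StarAlgebra.subset_adjoin ℂ _ (Or.inr ⟨x, rfl⟩)
  exact (h1.closure.mono h2).separableSpace

end

theorem t_RES1C (hA : S_ABSN) (hL : S_LEBP) (habsi : S_ABSI) (hex : S_EX)
    (hQ : Pool.Agent.H923R2.FP.S_UNIQ) (hU : S_UNG2) (hG : S_GRP2) (hS : S_SUB) (hcl : S_CLO)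
    (hF : S_LEBF) (hN : S_LEBN) (hW : S_SEPW) : S_RES1C := by
  intro n hn P B _ _ τP g hR τ i j hτ hi hj hfree hgen
  have := sepTT g
  let t : ∀ m, TT g m →ₗ[ℂ] ℂ := fun m => τP.comp (TT g m).subtype.toAlgHom.toLinearMap
  have ht : ∀ m, FTS (t m) := fun m => (hS P τP hR.fts (TT g m)).1
  -- Lebesgue copies
  have hleb : ∀ m, ∃ c : C(unitInterval, ℂ) →⋆ₐ[ℂ] TT g m, ∀ x, t m (c x) = leb x := by
    intro m
    obtain ⟨c, hc, hc2⟩ := hL P τP hR.fts (g (2 * m)) (g (2 * m + 1)) (hR.tr _) (hR.tr _) (by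
      refine free_reindex hR.free (fun b : Bool => if b then 2 * m else 2 * m + 1) ?_ ?_
      · intro b b' h
        cases b <;> cases b' <;> simp at h ⊢
      · intro b
        cases b
        · exact le_rfl
        · exact le_rfl)
    exact ⟨StarAlgHom.codRestrict c (TT g m) hc2, hc⟩
  obtain ⟨c0, hc0⟩ := hleb 0
  obtain ⟨c1, hc1⟩ := hleb 1
  -- `P` as a reduced free product of the `TT g m`
  have hfP : FreeFam τP (fun m => TT g m) := by
    refine free_reindex (hcl P τP hR.fts ℕ _ (free_group hR.fts hR.free fun k => k / 2)) id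
      Function.injective_id ?_
    intro m
    refine StarSubalgebra.topologicalClosure_mono (sup_le ?_ ?_)
    · exact le_iSup (fun k : {k // k ∈ (fun k : ℕ => k / 2) ⁻¹' {m}} => (g k.1).range)
        ⟨2 * m, by simp⟩
    · exact le_iSup (fun k : {k // k ∈ (fun k : ℕ => k / 2) ⁻¹' {m}} => (g k.1).range)
        ⟨2 * m + 1, by simp; omega⟩
  have hgP : (StarAlgebra.adjoin ℂ (⋃ m, (TT g m : Set P))).topologicalClosure = ⊤ := by
    rw [eq_top_iff, ← hR.gen]
    refine StarSubalgebra.topologicalClosure_mono (StarAlgebra.adjoin_mono ?_)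
    intro x hx
    obtain ⟨k, y, rfl⟩ := Set.mem_iUnion.1 hx
    exact Set.mem_iUnion.2 ⟨k / 2, mem g k y⟩
  have hP : RFP (fun m => TT g m) (fun m => t m) τP (fun m => (TT g m).subtype) := by
    refine ⟨hR.fts, fun m x => rfl, ?_, ?_⟩
    · refine free_reindex hfP id Function.injective_id ?_
      rintro m _ ⟨x, rfl⟩
      exact x.2
    · rw [← hgP]
      congr 2
      refine Set.iUnion_congr fun m => ?_
      exact Subtype.range_coe
  -- in `B`
  refine core hA habsi hex hQ hW hF hN (fun m => TT g m) t ht c0 c1 hc0 hc1 n hn P B τP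
    (fun m => (TT g m).subtype) hP τ i (fun m => j.comp (TT g m).subtype) hτ hi
    (fun m x => hj x) ?_ ?_
  · refine hU B τ hτ (Option ℕ) _ (Set.range some) j.range ?_ ?_ ?_
    · rintro _ ⟨m, rfl⟩ _ ⟨x, rfl⟩
      exact ⟨x, rfl⟩
    · have h1 := free_map j hj hfP
      have hc : ∀ k : {k : Option ℕ // k ∈ Set.range some}, some k.2.choose = k.1 :=
        fun k => k.2.choose_spec
      refine free_reindex h1 (fun k : {k : Option ℕ // k ∈ Set.range some} => k.2.choose) ?_ ?_
      · intro k k' h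
        apply Subtype.ext
        rw [← hc k, ← hc k']
        exact congrArg some h
      · intro k
        obtain ⟨k, hk⟩ := k
        have h2 : some hk.choose = k := hk.choose_spec
        change Option.elim k i.range (fun m => (j.comp (TT g m).subtype).range) ≤
          (TT g hk.choose).map j
        generalize hk.choose = m at h2
        subst h2
        rintro _ ⟨x, rfl⟩
        exact ⟨x, x.2, rfl⟩
    · refine free_reindex hfree (fun o : Option {k : Option ℕ // k ∉ Set.range some} =>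
        o.elim false fun _ => true) ?_ ?_
      · have hn : ∀ k : {k : Option ℕ // k ∉ Set.range some}, k.1 = none := by
          rintro ⟨_ | m, hk⟩
          · rfl
          · exact absurd ⟨m, rfl⟩ hk
        rintro (_ | k) (_ | k') h
        · rfl
        · exact absurd h (by simp)
        · exact absurd h (by simp)
        · congr 1
          apply Subtype.ext
          rw [hn k, hn k']
      · rintro (_ | ⟨_ | m, hk⟩)
        · exact le_rfl
        · exact le_rfl
        · exact absurd ⟨m, rfl⟩ hk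
  · set C := (StarAlgebra.adjoin ℂ (Set.range i ∪ ⋃ m, Set.range (j.comp (TT g m).subtype))
      ).topologicalClosure with hC
    have hCc : IsClosed (C : Set B) := StarSubalgebra.isClosed_topologicalClosure _
    have h1 : (⊤ : StarSubalgebra ℂ P) ≤ C.comap j := by
      rw [← hgP]
      refine StarSubalgebra.topologicalClosure_minimal (StarAlgebra.adjoin_le ?_) ?_
      · intro x hx
        obtain ⟨m, hm⟩ := Set.mem_iUnion.1 hx
        refine StarSubalgebra.le_topologicalClosure _ (StarAlgebra.subset_adjoin ℂ _ (Or.inr ?_))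
        exact Set.mem_iUnion.2 ⟨m, ⟨x, hm⟩, rfl⟩
      · exact hCc.preimage (cont_hom j)
    rw [eq_top_iff, ← hgen]
    refine StarSubalgebra.topologicalClosure_minimal (StarAlgebra.adjoin_le ?_) hCc
    rintro x (hx | ⟨x, rfl⟩)
    · exact StarSubalgebra.le_topologicalClosure _ (StarAlgebra.subset_adjoin ℂ _ (Or.inl hx))
    · exact h1 (StarSubalgebra.mem_top (x := x))

end Pool.Agent.N46.UN
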