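import Pool.Agent.N300.UN.Stubs2
import Pool.Agent.H940D.FZ_GRP2

/-! Free families: reindexing, transport, grouping along a map. -/

set_option autoImplicit false

open scoped ComplexConjugate

noncomputable section

namespace Pool.Agent.N46.UN

open Pool.Agent.H923R2.FP Pool.Agent.H923R2.FZ

section

variable {A : Type} [CStarAlgebra A]

/-- injective reindexing -/
theorem free_reindex {K L : Type} {τ : A →ₗ[ℂ] ℂ} {S : K → StarSubalgebra ℂ A}
    (h : FreeFam τ S) {T : L → StarSubalgebra ℂ A} (π : L → K) (hπ : Function.Injective π)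
    (hT : ∀ l, T l ≤ S (π l)) : FreeFam τ T := by
  intro w hw h1 h2
  have h3 := h (w.map fun z => (π z.1, z.2)) (by simpa using hw) (by
    intro z hz
    obtain ⟨y, hy, rfl⟩ := List.mem_map.1 hz
    exact ⟨hT _ (h1 y hy).1, (h1 y hy).2⟩) (by
    rw [List.isChain_map]
    exact h2.imp fun a b hab e => hab (hπ e))
  rw [List.map_map] at h3
  exact h3

theorem cont_hom {B : Type} [CStarAlgebra B] (f : A →⋆ₐ[ℂ] B) : Continuous f :=
  AddMonoidHomClass.continuous_of_bound f 1 fun x => by
    rw [one_mul]; exact NonUnitalStarAlgHom.norm_apply_le f x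

open Classical in
/-- transport by a trace preserving homomorphism -/
theorem free_map {B : Type} [CStarAlgebra B] {τA : A →ₗ[ℂ] ℂ} {τB : B →ₗ[ℂ] ℂ}
    (j : B →⋆ₐ[ℂ] A) (hj : ∀ x, τA (j x) = τB x) {K : Type} {S : K → StarSubalgebra ℂ B}
    (h : FreeFam τB S) : FreeFam τA (fun k => (S k).map j) := by
  intro w hw h1 h2
  let y : K × A → B := fun z => if h : ∃ y ∈ S z.1, j y = z.2 then h.choose else 0
  have hy : ∀ z ∈ w, y z ∈ S z.1 ∧ j (y z) = z.2 := by
    intro z hz
    have h3 : ∃ y ∈ S z.1, j y = z.2 := by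
      obtain ⟨x, hx, hx2⟩ := (h1 z hz).1
      exact ⟨x, hx, hx2⟩
    have h4 : y z = h3.choose := dif_pos h3
    rw [h4]
    exact h3.choose_spec
  have h3 := h (w.map fun z => (z.1, y z)) (by simpa using hw) (by
    intro z hz
    obtain ⟨x, hx, rfl⟩ := List.mem_map.1 hz
    refine ⟨(hy x hx).1, ?_⟩
    rw [← hj, (hy x hx).2]
    exact (h1 x hx).2) (by
    rw [List.isChain_map]
    exact h2.imp fun a b hab e => hab e)
  rw [List.map_map, ← hj, map_list_prod j, List.map_map] at h3
  rw [← h3]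
  have e1 : w.map Prod.snd = w.map (⇑j ∘ Prod.snd ∘ fun z => (z.1, y z)) := by
    refine List.map_congr_left fun z hz => ?_
    exact ((hy z hz).2).symm
  rw [e1]

/-! ### grouping along a map -/

variable {K M : Type} {τ : A →ₗ[ℂ] ℂ} {S : K → StarSubalgebra ℂ A}

open Pool.Agent.H923R2.FZ.T_GRP2 (Gw V_centred sup_sub_V ty_none)

/-- products of nonempty words with indices over `m` -/
def U (τ : A →ₗ[ℂ] ℂ) (S : K → StarSubalgebra ℂ A) (π : K → M) (m : M) : Set A :=
  {p | ∃ w : List (K × A), w ≠ [] ∧ Gw τ S w ∧ (∀ z ∈ w, π z.1 = m) ∧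
    p = (w.map Prod.snd).prod}

/-- products of nonempty words whose first index is over `m` -/
def G (τ : A →ₗ[ℂ] ℂ) (S : K → StarSubalgebra ℂ A) (π : K → M) (m : M) : Set A :=
  {p | ∃ w : List (K × A), w ≠ [] ∧ Gw τ S w ∧ (∀ z ∈ w.head?, π z.1 = m) ∧
    p = (w.map Prod.snd).prod}

variable {π : K → M}

theorem U_mul_G {o o' : M} (ho : o ≠ o') {p q : A} (hp : p ∈ U τ S π o)
    (hq : q ∈ G τ S π o') : p * q ∈ G τ S π o := by
  obtain ⟨w, h1, h2, h3, rfl⟩ := hp
  obtain ⟨v, g1, g2, g3, rfl⟩ := hq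
  refine ⟨w ++ v, by simp [h1], ⟨?_, ?_⟩, ?_, ?_⟩
  · intro z hz
    rcases List.mem_append.1 hz with hz | hz
    · exact h2.1 z hz
    · exact g2.1 z hz
  · rw [List.isChain_append]
    refine ⟨h2.2, g2.2, fun x hx y hy hxy => ?_⟩
    have e1 := h3 x (List.mem_of_mem_getLast? hx)
    have e2 := g3 y hy
    rw [hxy] at e1
    rw [e1] at e2
    exact ho e2
  · intro z hz
    cases w with
    | nil => exact absurd rfl h1
    | cons x w =>
      rw [List.cons_append, List.head?_cons] at hz
      obtain rfl : x = z := by simpa using hz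
      exact h3 x (by simp)
  · rw [List.map_append, List.prod_append]

theorem span_mul {o o' : M} (ho : o ≠ o') {x y : A}
    (hx : x ∈ Submodule.span ℂ (U τ S π o))
    (hy : y ∈ Submodule.span ℂ (G τ S π o')) : x * y ∈ Submodule.span ℂ (G τ S π o) := by
  induction hx using Submodule.span_induction with
  | mem p hp =>
    induction hy using Submodule.span_induction with
    | mem q hq => exact Submodule.subset_span (U_mul_G ho hp hq)
    | zero => rw [mul_zero]; exact Submodule.zero_mem _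
    | add q q' _ _ h h' => rw [mul_add]; exact Submodule.add_mem _ h h'
    | smul c q _ h => rw [mul_smul_comm]; exact Submodule.smul_mem _ _ h
  | zero => rw [zero_mul]; exact Submodule.zero_mem _
  | add q q' _ _ h h' => rw [add_mul]; exact Submodule.add_mem _ h h'
  | smul c q _ h => rw [smul_mul_assoc]; exact Submodule.smul_mem _ _ h

theorem letter (hτ : FTS τ) (hS : FreeFam τ S) (m : M) {x : A}
    (hx : x ∈ ⨆ k : {k // k ∈ π ⁻¹' {m}}, S k.1) (hx0 : τ x = 0) :
    x ∈ Submodule.span ℂ (U τ S π m) := by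
  have h1 := V_centred hτ hS (sup_sub_V hτ hx)
  rw [hx0, zero_smul, sub_zero] at h1
  refine Submodule.span_mono ?_ h1
  rintro p ⟨w, g1, g2, g3, g4⟩
  exact ⟨w, g1, g2, fun z hz => (ty_none (P := π ⁻¹' {m})).1 (g3 z hz), g4⟩

theorem main (hτ : FTS τ) (hS : FreeFam τ S) (w : List (M × A)) :
    ∀ (b : M) (x : A) (_ : ∀ z ∈ (b, x) :: w, z.2 ∈
      (⨆ k : {k // k ∈ π ⁻¹' {z.1}}, S k.1) ∧ τ z.2 = 0)
      (_ : ((b, x) :: w).IsChain (fun x y => x.1 ≠ y.1)),
      (((b, x) :: w).map Prod.snd).prod ∈ Submodule.span ℂ (G τ S π b) := by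
  induction w with
  | nil =>
    intro b x h _
    have := h (b, x) (by simp)
    simp only [List.map_cons, List.map_nil, List.prod_cons, List.prod_nil, mul_one]
    refine Submodule.span_mono ?_ (letter hτ hS b this.1 this.2)
    rintro p ⟨w, h1, h2, h3, h4⟩
    exact ⟨w, h1, h2, fun z hz => h3 z (List.mem_of_mem_head? hz), h4⟩
  | cons y w ih =>
    intro b x h hc
    obtain ⟨b', x'⟩ := y
    have hx := h (b, x) (by simp)
    rw [List.isChain_cons_cons] at hc
    have h1 := ih b' x' (fun z hz => h z (List.mem_cons_of_mem _ hz)) hc.2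
    rw [List.map_cons, List.prod_cons]
    exact span_mul hc.1 (letter hτ hS b hx.1 hx.2) h1

/-- **grouping along a map** -/
theorem free_group (hτ : FTS τ) (hS : FreeFam τ S) (π : K → M) :
    FreeFam τ (fun m => ⨆ k : {k // k ∈ π ⁻¹' {m}}, S k.1) := by
  intro w hw h1 h2
  cases w with
  | nil => exact absurd rfl hw
  | cons z w =>
    obtain ⟨b, x⟩ := z
    have h3 := main (π := π) hτ hS w b x h1 h2
    have h4 : ∀ p ∈ Submodule.span ℂ (G τ S π b), τ p = 0 := by
      intro p hp
      induction hp using Submodule.span_induction with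
      | mem p hp =>
        obtain ⟨v, g1, g2, g3, rfl⟩ := hp
        exact hS v g1 g2.1 g2.2
      | zero => exact map_zero _
      | add q q' _ _ h h' => rw [map_add, h, h', add_zero]
      | smul c q _ h => rw [map_smul, h, smul_zero]
    exact h4 _ h3

end

end Pool.Agent.N46.UN
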