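import Pool.Agent.N46.UN.Base

/-! `C([0,1]^n) * P ≅ P` for reduced free products `P` of separable algebras two of which contain
Lebesgue copies of `C([0,1])`. -/

set_option autoImplicit false

open scoped ComplexConjugate

noncomputable section

namespace Pool.Agent.N46.UN

open Pool.Agent.H923R2.FP Pool.Agent.H923R2.FZ Pool.Agent.N300.UN TopologicalSpace

/-- `RFPw` from families with a bigger index set; existence -/
theorem plus (hex : S_EX) (hLEBF : S_LEBF) (K : Type) (D : K → Type) [∀ k, CStarAlgebra (D k)]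
    (t : ∀ k, D k →ₗ[ℂ] ℂ) (ht : ∀ k, FTS (t k)) :
    ∃ (B : Type) (_ : CStarAlgebra B) (τ : B →ₗ[ℂ] ℂ) (e : ∀ k, D k →⋆ₐ[ℂ] B)
      (f : ℕ → (C(unitInterval, ℂ) →⋆ₐ[ℂ] B)), RFPw D (fun k => t k) τ e f := by
  obtain ⟨l, hl, hleb⟩ := hLEBF
  let E : K ⊕ ℕ → Type := fun o => Sum.elim D (fun _ => C(unitInterval, ℂ)) o
  let iD : ∀ o, CStarAlgebra (E o) := fun o => match o with
    | Sum.inl k => (inferInstance : CStarAlgebra (D k))
    | Sum.inr _ => (inferInstance : CStarAlgebra C(unitInterval, ℂ))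
  let tD : ∀ o, E o →ₗ[ℂ] ℂ := fun o => match o with
    | Sum.inl k => t k
    | Sum.inr _ => l
  have htD : ∀ o, FTS (tD o) := by
    rintro (i | n)
    · exact ht i
    · exact hl
  obtain ⟨B, iB, τ, e, hR⟩ := hex (K ⊕ ℕ) E iD tD htD
  refine ⟨B, iB, τ, fun j => e (Sum.inl j), fun n => e (Sum.inr n), ?_⟩
  refine ⟨hR.fts, ?_, ?_, ?_, ?_⟩
  · intro j x
    exact hR.tr (Sum.inl j) x
  · intro n x
    exact (hR.tr (Sum.inr n) x).trans (hleb x)
  · have h1 := hR.free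
    have h2 : (fun o : K ⊕ ℕ => o.elim (fun j => (e (Sum.inl j)).range)
        fun n => (e (Sum.inr n)).range) = fun j => (e j).range := by
      funext o
      rcases o with j | n
      · rfl
      · rfl
    exact h2 ▸ h1
  · have h1 := hR.gen
    rw [← h1]
    congr 2
    ext b
    simp only [Set.mem_union, Set.mem_iUnion]
    constructor
    · rintro (⟨j, hj⟩ | ⟨n, hn⟩)
      · exact ⟨Sum.inl j, hj⟩
      · exact ⟨Sum.inr n, hn⟩
    · rintro ⟨j | n, h⟩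
      · exact Or.inl ⟨j, h⟩
      · exact Or.inr ⟨n, h⟩

/-- `C([0,1]^n)` together with the `D m` -/
def Dp (n : ℕ) (D : ℕ → Type) : Option ℕ → Type
  | none => C(Cube n, ℂ)
  | some m => D m

instance iDp (n : ℕ) (D : ℕ → Type) [∀ m, CStarAlgebra (D m)] : ∀ o, CStarAlgebra (Dp n D o)
  | none => inferInstanceAs (CStarAlgebra C(Cube n, ℂ))
  | some m => inferInstanceAs (CStarAlgebra (D m))

/-- the traces -/
def tp (n : ℕ) (D : ℕ → Type) [∀ m, CStarAlgebra (D m)] (l : C(Cube n, ℂ) →ₗ[ℂ] ℂ)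
    (t : ∀ m, D m →ₗ[ℂ] ℂ) : ∀ o, Dp n D o →ₗ[ℂ] ℂ
  | none => l
  | some m => t m

/-- the homomorphisms -/
def ep (n : ℕ) (D : ℕ → Type) [∀ m, CStarAlgebra (D m)] {B : Type} [CStarAlgebra B]
    (i : C(Cube n, ℂ) →⋆ₐ[ℂ] B) (e : ∀ m, D m →⋆ₐ[ℂ] B) : ∀ o, Dp n D o →⋆ₐ[ℂ] B
  | none => i
  | some m => e m

theorem sepDp (n : ℕ) (D : ℕ → Type) [∀ m, CStarAlgebra (D m)]
    [∀ m, SeparableSpace (D m)] : ∀ o, SeparableSpace (Dp n D o)
  | none => inferInstanceAs (SeparableSpace C(Cube n, ℂ))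
  | some m => inferInstanceAs (SeparableSpace (D m))

theorem core (hA : S_ABSN) (habsi : S_ABSI) (hex : S_EX) (hQ : Pool.Agent.H923R2.FP.S_UNIQ)
    (hW : S_SEPW) (hF : S_LEBF) (hN : S_LEBN)
    (D : ℕ → Type) [∀ m, CStarAlgebra (D m)] [∀ m, SeparableSpace (D m)]
    (t : ∀ m, D m →ₗ[ℂ] ℂ) (ht : ∀ m, FTS (t m))
    (c0 : C(unitInterval, ℂ) →⋆ₐ[ℂ] D 0) (c1 : C(unitInterval, ℂ) →⋆ₐ[ℂ] D 1)
    (hc0 : ∀ x, t 0 (c0 x) = leb x) (hc1 : ∀ x, t 1 (c1 x) = leb x)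
    (n : ℕ) (hn : 1 ≤ n) (P B : Type) [CStarAlgebra P] [CStarAlgebra B]
    (τP : P →ₗ[ℂ] ℂ) (e : ∀ m, D m →⋆ₐ[ℂ] P) (hP : RFP D (fun m => t m) τP e)
    (τ : B →ₗ[ℂ] ℂ) (i : C(Cube n, ℂ) →⋆ₐ[ℂ] B) (eB : ∀ m, D m →⋆ₐ[ℂ] B) (hτ : FTS τ)
    (hi : ∀ x, τ (i x) = lebn n x) (heB : ∀ m x, τ (eB m x) = t m x)
    (hfree : FreeFam τ (fun o : Option ℕ => o.elim i.range fun m => (eB m).range))
    (hgen : (StarAlgebra.adjoin ℂ (Set.range i ∪ ⋃ m, Set.range (eB m))).topologicalClosure = ⊤) :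
    ∃ Φ : B ≃⋆ₐ[ℂ] P, ∀ x, τP (Φ x) = τ x := by
  obtain ⟨l, hl, hl2⟩ := hN n
  have := sepDp n D
  have hft : ∀ o, FTS (tp n D l t o) := by
    rintro (_ | m)
    · exact hl
    · exact ht m
  -- `B` as a reduced free product
  have hB : RFP (Dp n D) (fun o => tp n D l t o) τ (ep n D i eB) := by
    refine ⟨hτ, ?_, ?_, ?_⟩
    · rintro (_ | m) x
      · exact (hi x).trans (hl2 x).symm
      · exact heB m x
    · have : (fun o => (ep n D i eB o).range) =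
          fun o : Option ℕ => o.elim i.range fun m => (eB m).range := by
        funext o
        rcases o with _ | m
        · rfl
        · rfl
      rw [this]
      exact hfree
    · rw [← hgen]
      congr 2
      ext b
      simp only [Set.mem_union, Set.mem_iUnion]
      constructor
      · rintro ⟨_ | m, h⟩
        · exact Or.inl h
        · exact Or.inr ⟨m, h⟩
      · rintro (h | ⟨m, h⟩)
        · exact ⟨none, h⟩
        · exact ⟨some m, h⟩
  -- the big one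
  obtain ⟨A, iA, σ, a, f, hR⟩ := plus hex hF (Option ℕ) (Dp n D) (tp n D l t) hft
  have hsA : SeparableSpace A := hW (Option ℕ) (Dp n D) _ A σ a f hR
  -- `B ≅ A`
  obtain ⟨a', ha'⟩ := habsi (Option ℕ) (Dp n D) (fun o => tp n D l t o) (some 0) (some 1)
    (by simp) c0 c1 hc0 hc1 A σ a f hR
  obtain ⟨Φ, -, hΦ⟩ := hQ (Option ℕ) (Dp n D) (fun o => tp n D l t o) B A τ σ _ _ hB ha'
  -- `A` as reduced free product of the `D m` and copies of `C([0,1])`
  have hfree2 : FreeFam σ (fun o : ℕ ⊕ Option ℕ =>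
      o.elim (fun m => ((a (some m) : D m →⋆ₐ[ℂ] A)).range)
        fun o => o.elim (a none : C(Cube n, ℂ) →⋆ₐ[ℂ] A).range fun k => (f k).range) := by
    refine free_reindex hR.free (fun o : ℕ ⊕ Option ℕ => (o.elim (fun m => Sum.inl (some m))
      fun o => o.elim (Sum.inl none) fun k => Sum.inr k : Option ℕ ⊕ ℕ)) ?_ ?_
    · rintro (m | _ | k) (m' | _ | k') h <;> simp at h ⊢
      · exact h
      · exact h
    · rintro (m | _ | k)
      · exact le_rfl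
      · exact le_rfl
      · exact le_rfl
  have hgen2 : (StarAlgebra.adjoin ℂ ((⋃ m, Set.range (a (some m) : D m →⋆ₐ[ℂ] A)) ∪
      Set.range (a none : C(Cube n, ℂ) →⋆ₐ[ℂ] A) ∪ ⋃ k, Set.range (f k))).topologicalClosure
      = ⊤ := by
    rw [← hR.gen]
    congr 2
    ext b
    simp only [Set.mem_union, Set.mem_iUnion]
    constructor
    · rintro ((⟨m, h⟩ | h) | h)
      · exact Or.inl ⟨some m, h⟩
      · exact Or.inl ⟨none, h⟩
      · exact Or.inr h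
    · rintro (⟨_ | m, h⟩ | h)
      · exact Or.inl (Or.inr h)
      · exact Or.inl (Or.inl ⟨m, h⟩)
      · exact Or.inr h
  obtain ⟨f', hf'⟩ := hA ℕ D (fun m => t m) n hn A σ (fun m => a (some m)) (a none) f hR.fts
    (fun m x => hR.tr (some m) x) (fun x => (hR.tr none x).trans (hl2 x)) hR.trf hfree2 hgen2
  obtain ⟨a'', ha''⟩ := habsi ℕ D (fun m => t m) 0 1 (by simp) c0 c1 hc0 hc1 A σ _ f' hf'
  obtain ⟨Ψ, -, hΨ⟩ := hQ ℕ D (fun m => t m) A P σ τP _ _ ha'' hP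
  exact ⟨Φ.trans Ψ, fun x => (hΨ (Φ x)).trans (hΦ x)⟩

end Pool.Agent.N46.UN
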